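import Pool.Agent.Helper70.DK.Defs2

/-!
# DGOOD: the Diophantine property gives almost full entropy at fine scales, for all frames
-/

set_option autoImplicit false

namespace Pool.Agent.Helper70.DK

open Finset

theorem dgood_near {k : ℕ} (X : ℝ) (hX : 0 < X) (v w : Fin k → ℝ)
    (h : fl (X • v) = fl (X • w)) (x : Fin k) : |v x - w x| < X⁻¹ := by
  have h1 : ⌊X * v x⌋ = ⌊X * w x⌋ := by
    have := congrFun h x
    simpa [fl] using this
  have h2 := Int.abs_sub_lt_one_of_floor_eq_floor h1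
  rw [← mul_sub, abs_mul, abs_of_pos hX] at h2
  rw [← one_div, lt_div_iff₀ hX, mul_comm]
  exact h2

theorem st_DGOOD (hDSUB : ST_DSUB) (hDPTS : ST_DPTS) (hPB : ST_PB) (hE2 : ST_E2) : ST_DGOOD := by
  classical
  intro m B C M R ε0 hm hB hR hε0 hM
  obtain ⟨n0, hn0⟩ := hDSUB m B C M R hm hB hR hM
  refine ⟨n0, ?_⟩
  intro ι _ _ σ t i n hok ht0 ht1 hcard hn hdio k hk π hπ
  obtain ⟨Γ, hΓ, hnear⟩ := hn0 ι σ t i n k π hok ht0 ht1 hn hdio hπ
  obtain ⟨-, -, hbox, hinj, -⟩ := hPB m B R t ι σ hB hR ht0 ht1 hok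
  obtain ⟨-, hE22, -⟩ := hE2
  have hB0 : (0 : ℝ) < (B : ℝ) := by
    have : (2 : ℝ) ≤ (B : ℝ) := by exact_mod_cast hB
    linarith
  have hX : (0 : ℝ) < (B : ℝ) ^ ((M - 1) * n) := by positivity
  have hBn : 1 ≤ B ^ n := Nat.one_le_pow _ _ (by omega)
  have hkey := hE22 (Fin n → ι) (Fin k → ℤ) univ
    (fun u => fl ((B : ℝ) ^ ((M - 1) * n) • π.mulVec (σ.P B t i n u))) ((B ^ n) ^ (m - k))
    Finset.univ_nonempty ?_
  · have h1 : Real.log ((univ : Finset (Fin n → ι)).card : ℝ) = n * Real.log (Fintype.card ι) := by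
      rw [Finset.card_univ, Fintype.card_fun, Fintype.card_fin, Nat.cast_pow, Real.log_pow]
    have h2 : Real.log (((B ^ n) ^ (m - k) : ℕ) : ℝ) = ((m : ℝ) - k) * (n * Real.log B) := by
      rw [Nat.cast_pow, Nat.cast_pow, Real.log_pow, Real.log_pow, Nat.cast_sub hk]
    rw [h1, h2] at hkey
    have h3 : (n : ℝ) * ((m - ε0) * Real.log B) ≤ n * Real.log (Fintype.card ι) :=
      mul_le_mul_of_nonneg_left hcard (Nat.cast_nonneg n)
    have h4 : ((k : ℝ) - ε0) * n * Real.log B =
        (n : ℝ) * ((m - ε0) * Real.log B) - ((m : ℝ) - k) * (n * Real.log B) := by ring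
    rw [h4]
    exact le_trans (by linarith) hkey
  · intro u _
    set f : (Fin n → ι) → (Fin k → ℤ) :=
      fun u => fl ((B : ℝ) ^ ((M - 1) * n) • π.mulVec (σ.P B t i n u)) with hf
    have hmem : ∀ v, v ∈ fib univ f (f u) ↔ f v = f u := by
      intro v
      have h0 := @Finset.mem_filter _ (fun w => f w = f u)
        (fun a => Classical.propDecidable (f a = f u)) univ v
      exact ⟨fun h => (h0.mp h).2, fun h => h0.mpr ⟨Finset.mem_univ _, h⟩⟩
    have hcardD : ((fib univ f (f u)).image (σ.D B i n)).card = (fib univ f (f u)).card :=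
      Finset.card_image_of_injective _ (hinj i n)
    rw [← hcardD]
    refine le_trans (hDPTS m (B ^ n) Γ _ hBn ?_ ?_) ?_
    · intro z hz c
      rw [Finset.mem_image] at hz
      obtain ⟨v, -, rfl⟩ := hz
      have := hbox i n v c
      refine ⟨this.1, ?_⟩
      rw [Nat.cast_pow]
      exact this.2
    · intro z hz z' hz'
      rw [Finset.mem_image] at hz hz'
      obtain ⟨v, hv, rfl⟩ := hz
      obtain ⟨v', hv', rfl⟩ := hz'
      rw [hmem] at hv hv'
      apply hnear
      intro x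
      exact dgood_near _ hX _ _ (hv.trans hv'.symm) x
    · exact Nat.pow_le_pow_right hBn (by omega)

end Pool.Agent.Helper70.DK
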